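import Pool.Agent.H12R3.VR.Stmts

set_option autoImplicit false

open Filter Topology

namespace Pool.Agent.H482.VR

open H12VR

theorem t : H12VR.TaskVert := by
  intro f x₀ k hf hk hinv
  obtain ⟨δ, hδ, hfδ⟩ := Metric.continuousAt_iff.1 hf 1 one_pos
  refine ⟨δ, hδ, fun x hx => ?_⟩
  by_contra hne
  have hd : f x - f x₀ ≠ 0 := sub_ne_zero.2 hne
  have hclosed : IsClosed ({p : ℝ × ℝ | δ ≤ |p.1 - x₀|} ∪ {p : ℝ × ℝ | |p.2 - f x₀| ≤ 1}) := by
    apply IsClosed.union
    · exact isClosed_le continuous_const (by fun_prop)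
    · exact isClosed_le (by fun_prop) continuous_const
  have hsub : closure (gr f) ⊆
      ({p : ℝ × ℝ | δ ≤ |p.1 - x₀|} ∪ {p : ℝ × ℝ | |p.2 - f x₀| ≤ 1}) := by
    apply closure_minimal _ hclosed
    rintro ⟨a, b⟩ hab
    have hab' : b = f a := hab
    rcases le_or_gt δ |a - x₀| with h | h
    · exact Or.inl h
    · right
      have h1 := hfδ (show dist a x₀ < δ from h)
      rw [Real.dist_eq] at h1
      show |b - f x₀| ≤ 1
      rw [hab']
      exact h1.le
  have hγ : ∀ t : ℝ, HasDerivAt (fun t : ℝ => ((x, f x₀ + Real.exp (k * t) * (f x - f x₀)) : ℝ × ℝ))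
      (fd ![0, 0, 0, 0, k, -(k * f x₀)] (x, f x₀ + Real.exp (k * t) * (f x - f x₀))) t := by
    intro t
    have h1 : HasDerivAt (fun t : ℝ => f x₀ + Real.exp (k * t) * (f x - f x₀))
        (k * Real.exp (k * t) * (f x - f x₀)) t := by
      have h2 : HasDerivAt (fun t : ℝ => k * t) k t := by
        simpa using (hasDerivAt_id t).const_mul k
      have h3 := (h2.exp.mul_const (f x - f x₀)).const_add (f x₀)
      refine h3.congr_deriv ?_
      ring
    have h4 := (hasDerivAt_const t x).prodMk h1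
    refine h4.congr_deriv ?_
    simp [fd]
    ring
  have hmem := hinv _ hγ (by
    apply subset_closure
    show f x₀ + Real.exp (k * 0) * (f x - f x₀) = f x
    simp)
  have hb : ∀ t : ℝ, |Real.exp (k * t) * (f x - f x₀)| ≤ 1 := by
    intro t
    rcases hsub (hmem t) with h | h
    · exact absurd h (not_le.2 hx)
    · have h' : |f x₀ + Real.exp (k * t) * (f x - f x₀) - f x₀| ≤ 1 := h
      rwa [add_sub_cancel_left] at h'
  have h1 := hb (1 / |f x - f x₀| / k)
  rw [mul_div_cancel₀ _ hk, abs_mul, abs_of_pos (Real.exp_pos _)] at h1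
  have hpos : 0 < |f x - f x₀| := abs_pos.2 hd
  have h2 := Real.add_one_le_exp (1 / |f x - f x₀|)
  have h3 : (1 / |f x - f x₀| + 1) * |f x - f x₀| ≤ 1 :=
    (mul_le_mul_of_nonneg_right h2 hpos.le).trans h1
  rw [add_mul, one_div, inv_mul_cancel₀ hpos.ne'] at h3
  linarith

end Pool.Agent.H482.VR
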